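import Pool.Agent.Helper21.W4.St1

set_option autoImplicit false

namespace Pool.Agent.Helper79.W4

open Pool.Agent.Helper21.W4 Finset

theorem arr (B : ℕ) (h : ℕ → ℕ → ℕ) (P : ℕ → ℕ → ℕ → Prop)
    (hP : ∀ x y z, x < h y z ↔ P x y z) (m1 : ∀ x y z, P x (y + 1) z → P x y z)
    (m2 : ∀ x y z, P x y (z + 1) → P x y z)
    (bd : ∀ x y z, P x y z → x + 1 < B ∧ y + 1 < B ∧ z + 1 < B) : Ar B h where
  a1 := by
    intro p q
    by_contra hc
    push Not at hc
    have h1 := (hP _ _ _).1 hc
    have h2 := (hP _ _ _).2 (m1 _ _ _ h1)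
    omega
  a2 := by
    intro p q
    by_contra hc
    push Not at hc
    have h1 := (hP _ _ _).1 hc
    have h2 := (hP _ _ _).2 (m2 _ _ _ h1)
    omega
  z1 := by
    intro p q hB
    by_contra hc
    have h1 := (hP 0 p q).1 (Nat.pos_of_ne_zero hc)
    have h2 := (bd _ _ _ h1).2.1
    omega
  z2 := by
    intro p q hB
    by_contra hc
    have h1 := (hP 0 p q).1 (Nat.pos_of_ne_zero hc)
    have h2 := (bd _ _ _ h1).2.2
    omega
  bd := by
    intro p q
    by_cases hc : h p q = 0
    · exact Or.inr hc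
    · left
      have h1 := (hP (h p q - 1) p q).1 (by omega)
      have h2 := (bd _ _ _ h1).1
      omega

theorem sq1 {B : ℕ} {h : ℕ → ℕ → ℕ} (H : Ar B h) : Sq B (fun p => h p 0) :=
  ⟨fun p => H.a1 p 0, fun p hp => H.z1 p 0 hp, fun p => H.bd p 0⟩

theorem sq2 {B : ℕ} {h : ℕ → ℕ → ℕ} (H : Ar B h) : Sq B (fun r => h 0 r) :=
  ⟨fun p => H.a2 0 p, fun p hp => H.z2 0 p hp, fun p => H.bd 0 p⟩

theorem hAr : StAr := by
  intro B h1 h2 h3 H
  have A1 : Ar B h1 := arr B h1 (fun x y z => x < h1 y z) (fun x y z => Iff.rfl)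
    (by
      intro x y z h
      have k := (H.e12 x (y + 1) z).1 h
      exact (H.e12 x y z).2 (by omega))
    (by
      intro x y z h
      have k := (H.e13 x y (z + 1)).1 h
      exact (H.e13 x y z).2 (by omega))
    (fun x y z h => H.bd x y z h)
  have A2 : Ar B h2 := arr B h2 (fun x y z => y < h1 x z) (fun x y z => (H.e12 y x z).symm)
    (by
      intro x y z h
      show y < h1 x z
      have k : y + 1 < h1 x z := h
      omega)
    (by
      intro x y z h
      have k := (H.e13 y x (z + 1)).1 h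
      exact (H.e13 y x z).2 (by omega))
    (fun x y z h => by
      have k := H.bd y x z h
      exact ⟨k.2.1, k.1, k.2.2⟩)
  have A3 : Ar B h3 := arr B h3 (fun x y z => y < h1 z x) (fun x y z => (H.e13 y z x).symm)
    (by
      intro x y z h
      show y < h1 z x
      have k : y + 1 < h1 z x := h
      omega)
    (by
      intro x y z h
      have k := (H.e12 y (z + 1) x).1 h
      exact (H.e12 y z x).2 (by omega))
    (fun x y z h => by
      have k := H.bd y z x h
      exact ⟨k.2.2, k.1, k.2.1⟩)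
  refine ⟨A1, A2, A3, sq1 A2, sq1 A1, fun p q => (H.e12 p q 0).symm, sq1 A3, sq2 A1,
    fun p q => (H.e13 p 0 q).symm, sq2 A3, sq2 A2, fun p q => ?_⟩
  exact (H.e13 0 p q).symm.trans (H.e12 0 p q)

end Pool.Agent.Helper79.W4
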