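import Pool.Agent.Helper21.W4.St1

set_option autoImplicit false

namespace Pool.Agent.Helper79.W4

open Pool.Agent.Helper21.W4 Finset

theorem shiftC (B : ℕ) (f : ℕ → ℕ) (hf : f B = 0) :
    ∑ p ∈ range B, f p = f 0 + ∑ p ∈ range B, f (p + 1) := by
  have h1 := Finset.sum_range_succ' f B
  have h2 := Finset.sum_range_succ f B
  omega

theorem rowC (B L : ℕ) (s : ℕ → ℕ) (hL : L ≤ B) (hs : ∀ p, 0 < s (p + 1) ↔ p + 1 < L) :
    ∑ p ∈ range B, s (p + 1) = ar B s + (L - 1) := by
  have h1 : ∀ p ∈ range B, s (p + 1) = (s (p + 1) - 1) + (if p + 1 < L then 1 else 0) := by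
    intro p _
    by_cases h : p + 1 < L
    · rw [if_pos h]
      have := (hs p).2 h
      omega
    · rw [if_neg h]
      have : ¬ 0 < s (p + 1) := fun k => h ((hs p).1 k)
      omega
  rw [Finset.sum_congr rfl h1, Finset.sum_add_distrib, ← Finset.sum_filter,
    Finset.sum_const, smul_eq_mul, mul_one]
  have h2 : (range B).filter (fun p => p + 1 < L) = range (L - 1) := by
    ext p
    simp only [mem_filter, mem_range]
    omega
  rw [h2, card_range]
  rfl

theorem hCard : StCard := by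
  intro hInt B h1 h2 h3 H
  have H0 : PP0 B h1 h2 h3 := ⟨H.e12, H.e13, H.bd⟩
  have hI := hInt B h1 h2 h3 H0
  have zB1 : ∀ q, h3 B q = 0 := by
    intro q
    by_contra hc
    have k := (H.e13 B q 0).2 (Nat.pos_of_ne_zero hc)
    have := (H.bd _ _ _ k).1
    omega
  have zB2 : ∀ p, h3 p B = 0 := by
    intro p
    by_contra hc
    have k := (H.e13 p B 0).2 (Nat.pos_of_ne_zero hc)
    have := (H.bd _ _ _ k).2.1
    omega
  have L1 : h1 0 0 ≤ B := by
    by_contra hc
    push Not at hc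
    have := (H.bd B 0 0 hc).1
    omega
  have L2 : h2 0 0 ≤ B := by
    by_contra hc
    push Not at hc
    have k := (H.e12 0 B 0).2 hc
    have := (H.bd _ _ _ k).2.1
    omega
  have r1 := rowC B (h1 0 0) (fun p => h3 p 0) L1 (fun p => (H.e13 (p + 1) 0 0).symm)
  have r2 := rowC B (h2 0 0) (fun q => h3 0 q) L2
    (fun q => (H.e13 0 (q + 1) 0).symm.trans (H.e12 0 (q + 1) 0))
  have row : ∀ p, ∑ q ∈ range B, h3 p q = h3 p 0 + ∑ q ∈ range B, h3 p (q + 1) :=
    fun p => shiftC B (fun q => h3 p q) (zB2 p)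
  have v1 : vol B h3 = (∑ q ∈ range B, h3 0 q) + ∑ p ∈ range B, ∑ q ∈ range B, h3 (p + 1) q :=
    shiftC B (fun p => ∑ q ∈ range B, h3 p q) (by simp [zB1])
  have v2 : ∑ p ∈ range B, ∑ q ∈ range B, h3 (p + 1) q =
      ∑ p ∈ range B, h3 (p + 1) 0 + intS B h3 := by
    unfold intS
    rw [← Finset.sum_add_distrib]
    exact Finset.sum_congr rfl fun p _ => row (p + 1)
  have v3 := row 0
  have n3 := H.n3
  rw [v1, v2, v3, hI]

  rw [r1, r2]
  omega

end Pool.Agent.Helper79.W4
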