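import Pool.Agent.Helper21.W4.St5

set_option autoImplicit false

namespace Pool.Agent.Helper79.W4

open Pool.Agent.Helper21.W4 Finset
open Pool.Agent.Helper67.WI (IsNF gens mult cond psi psi_apply wN psi_inj IsNF_down exists_Ap
  exists_NF le_wN Ap_le IsNF_single)

theorem val_Tsg (a : Fin 3 → ℕ) (m : ℕ) (p q r : ℕ) :
    p • ((a 0 : ℕ) : ZMod m) + q • ((a 1 : ℕ) : ZMod m) + r • ((a 2 : ℕ) : ZMod m) =
      psi a m ![p, q, r] := by
  rw [psi_apply]
  unfold wN
  rw [Fin.sum_univ_three]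
  simp only [Matrix.cons_val_zero, Matrix.cons_val_one, Matrix.cons_val_two, Matrix.head_cons,
    Matrix.tail_cons, nsmul_eq_mul, Matrix.cons_val]
  push_cast
  ring

theorem vec_Tsg (v : Fin 3 → ℕ) : ![v 0, v 1, v 2] = v := by
  funext i
  fin_cases i <;> rfl

theorem hTsg : StTsg := by
  intro S a hS hc hinj hgen
  refine ⟨?_, ?_, ?_, ?_, ?_⟩
  · intro p q r p' q' r' h hp hq hr
    refine IsNF_down hgen h ![p', q', r'] ?_
    intro i
    fin_cases i
    · exact hp
    · exact hq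
    · exact hr
  · intro p q r p' q' r' h1 h2 h
    rw [val_Tsg, val_Tsg] at h
    have h3 := psi_inj hS h1 h2 h
    exact ⟨congrFun h3 0, congrFun h3 1, congrFun h3 2⟩
  · intro p q r
    obtain ⟨w, hw, hwx⟩ := exists_Ap hS (wN a ![p, q, r])
    obtain ⟨v, hv, hvw⟩ := exists_NF hS hgen hw
    refine ⟨v 0, v 1, v 2, ?_, ?_⟩
    · show IsNF S a ![v 0, v 1, v 2]
      rw [vec_Tsg]
      exact hv
    · rw [val_Tsg, val_Tsg, vec_Tsg, psi_apply, psi_apply, ZMod.natCast_eq_natCast_iff, hvw]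
      exact hwx
  · refine ⟨cond S + mult S + 2, fun p q r h => ?_⟩
    have h0 : p ≤ wN a ![p, q, r] := le_wN hS hgen ![p, q, r] 0
    have h1 : q ≤ wN a ![p, q, r] := le_wN hS hgen ![p, q, r] 1
    have h2 : r ≤ wN a ![p, q, r] := le_wN hS hgen ![p, q, r] 2
    have h3 := Ap_le hS hc h.1
    omega
  · have e0 : (Pi.single 0 1 : Fin 3 → ℕ) = ![1, 0, 0] := by
      funext i; fin_cases i <;> rfl
    have e1 : (Pi.single 1 1 : Fin 3 → ℕ) = ![0, 1, 0] := by
      funext i; fin_cases i <;> rfl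
    have e2 : (Pi.single 2 1 : Fin 3 → ℕ) = ![0, 0, 1] := by
      funext i; fin_cases i <;> rfl
    refine ⟨?_, ?_, ?_⟩
    · show IsNF S a ![1, 0, 0]
      rw [← e0]
      exact IsNF_single hS hinj hgen 0
    · show IsNF S a ![0, 1, 0]
      rw [← e1]
      exact IsNF_single hS hinj hgen 1
    · show IsNF S a ![0, 0, 1]
      rw [← e2]
      exact IsNF_single hS hinj hgen 2

end Pool.Agent.Helper79.W4
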