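import Pool.Agent.Helper21.W4.St1

set_option autoImplicit false

namespace Pool.Agent.Helper79.W4

open Pool.Agent.Helper21.W4 Finset

theorem hYex : StYex := by
  classical
  intro B h1 h2 h3 H hh
  let S : Finset (ℕ × ℕ × ℕ) := (range B ×ˢ range B ×ˢ range B).filter
    (fun x => x.1 < h1 x.2.1 x.2.2 ∧ Two x.1 x.2.1 x.2.2)
  have hmem : ∀ a b c, a < h1 b c → Two a b c → (a, b, c) ∈ S := by
    intro a b c h t
    have k := H.bd a b c h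
    simp only [S, mem_filter, mem_product, mem_range]
    exact ⟨⟨by omega, by omega, by omega⟩, h, t⟩
  have hne : S.Nonempty := by
    rcases hh with h | h | h
    · exact ⟨_, hmem 1 1 0 h (Or.inl ⟨le_rfl, le_rfl⟩)⟩
    · exact ⟨_, hmem 1 0 1 h (Or.inr (Or.inl ⟨le_rfl, le_rfl⟩))⟩
    · exact ⟨_, hmem 0 1 1 ((H.e12 0 1 1).2 h) (Or.inr (Or.inr ⟨le_rfl, le_rfl⟩))⟩
  obtain ⟨x, hx, hmax⟩ := Finset.exists_max_image S (fun x => x.1 + x.2.1 + x.2.2) hne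
  obtain ⟨p, q, r⟩ := x
  simp only [S, mem_filter] at hx
  exact ⟨p, q, r, hx.2.1, hx.2.2, fun p' q' r' h' t' => hmax (p', q', r') (hmem p' q' r' h' t')⟩

theorem hYo : StYo := by
  intro B h1 h2 h3 c1 c2 c3 κ p q r H hK hY
  have hmax := hY.max
  have hmem := hY.mem
  have h2' : 2 ≤ p + q + r := by
    have := hY.two
    unfold Two at this
    omega
  have hk1 := hK.1 p q r hmem
  have n1 := H.n1
  have n2 := H.n2
  have n3 := H.n3
  refine ⟨h2', ?_, ?_, ?_, ?_, ?_, ?_, ?_⟩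
  · show κ = p + q + r + 3 ∨ (κ = h1 0 0 - 1 + 3 ∧ p + q + r < h1 0 0 - 1) ∨
      (κ = h2 0 0 - 1 + 3 ∧ p + q + r < h2 0 0 - 1) ∨ (κ = h3 0 0 - 1 + 3 ∧ p + q + r < h3 0 0 - 1)
    have k1 := hK.1 (h1 0 0 - 1) 0 0 (by omega)
    have k2 := hK.1 0 (h2 0 0 - 1) 0 ((H.e12 0 (h2 0 0 - 1) 0).2 (by omega))
    have k3 := hK.1 0 0 (h3 0 0 - 1) ((H.e13 0 0 (h3 0 0 - 1)).2 (by omega))
    obtain ⟨a, b, c, hm, he⟩ := hK.2
    by_cases ht : Two a b c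
    · have := hmax a b c hm ht
      omega
    · have h0 : (b = 0 ∧ c = 0) ∨ (a = 0 ∧ c = 0) ∨ (a = 0 ∧ b = 0) := by
        unfold Two at ht
        omega
      rcases h0 with ⟨rfl, rfl⟩ | ⟨rfl, rfl⟩ | ⟨rfl, rfl⟩
      · omega
      · have := (H.e12 0 b 0).1 hm
        omega
      · have := (H.e13 0 0 c).1 hm
        omega
  · show h1 1 0 - 1 + 1 ≤ p + q + r
    by_cases h : h1 1 0 ≤ 1
    · omega
    · have := hmax (h1 1 0 - 1) 1 0 (by omega) (Or.inl ⟨by omega, le_rfl⟩)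
      omega
  · show h1 0 1 - 1 + 1 ≤ p + q + r
    by_cases h : h1 0 1 ≤ 1
    · omega
    · have := hmax (h1 0 1 - 1) 0 1 (by omega) (Or.inr (Or.inl ⟨by omega, le_rfl⟩))
      omega
  · show h2 1 0 - 1 + 1 ≤ p + q + r
    by_cases h : h2 1 0 ≤ 1
    · omega
    · have := hmax 1 (h2 1 0 - 1) 0 ((H.e12 1 (h2 1 0 - 1) 0).2 (by omega))
        (Or.inl ⟨le_rfl, by omega⟩)
      omega
  · show h2 0 1 - 1 + 1 ≤ p + q + r
    by_cases h : h2 0 1 ≤ 1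
    · omega
    · have := hmax 0 (h2 0 1 - 1) 1 ((H.e12 0 (h2 0 1 - 1) 1).2 (by omega))
        (Or.inr (Or.inr ⟨by omega, le_rfl⟩))
      omega
  · show h3 1 0 - 1 + 1 ≤ p + q + r
    by_cases h : h3 1 0 ≤ 1
    · omega
    · have := hmax 1 0 (h3 1 0 - 1) ((H.e13 1 0 (h3 1 0 - 1)).2 (by omega))
        (Or.inr (Or.inl ⟨le_rfl, by omega⟩))
      omega
  · show h3 0 1 - 1 + 1 ≤ p + q + r
    by_cases h : h3 0 1 ≤ 1
    · omega
    · have := hmax 0 1 (h3 0 1 - 1) ((H.e13 0 1 (h3 0 1 - 1)).2 (by omega))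
        (Or.inr (Or.inr ⟨le_rfl, by omega⟩))
      omega

end Pool.Agent.Helper79.W4
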